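import Pool.Agent.W_448s8_h61.DC
import Pool.Agent.W_448fw_h5.FwV

/-!
From the strips to the context `WM` (MP_448cb3_co, S8, block D2).
-/

namespace Pool.Agent.GaussPoset

set_option linter.unusedSectionVars false

open Polynomial Finset

universe u

variable {P : Type u} [Fintype P] [PartialOrder P] [DecidableEq P] {r m : ℕ}

open Cp

section One

variable {t : Tops P} {lo hi : ℕ → ℕ} {e : ℕ → ℕ → P}

/-- the type of a strip -/
theorem tyM_shape (h : Win.GoodTo P r (2 * m)) (hm : 10 ≤ m) (C : Comp (2 * m) (t : P) lo hi e)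
    (hS : Wd.Shape (2 * m) lo hi) : ∃ N θ, TyM m t (hi m - lo m + 1) N θ ∧
      (StairShape (2 * m) lo hi → StairInfo m t lo hi e N θ) := by
  by_cases S : StairShape (2 * m) lo hi
  · obtain ⟨N, θ, h1, h2⟩ := tyM_stair h hm C S
    exact ⟨N, θ, h1, fun _ => h2⟩
  · suffices hs : ∃ N θ, TyM m t (hi m - lo m + 1) N θ by
      obtain ⟨N, θ, h1⟩ := hs
      exact ⟨N, θ, h1, fun h2 => absurd h2 S⟩
    rcases hS with h1 | ⟨h1, h2⟩ | ⟨h1, h2⟩ | ⟨h1, h2, h3⟩ | ⟨h1, h2⟩ | ⟨a, h0, h1, h2, h3, hN, h4⟩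
    · have e1 := h1 m (by omega)
      exact ⟨_, _, TyM.light rfl rfl (by omega) (only_low h)
        ⟨e m (lo m), C.le_t m (lo m) (by omega) le_rfl (C.lo_le m (by omega)),
          C.lev_e m (lo m) (by omega) le_rfl (C.lo_le m (by omega))⟩ (lInf_light h hm C h1)⟩
    · exact tyM_rect h hm C h1 h2
    · exact absurd h2 S
    · omega
    · omega
    · exact tyM_late h hm C ⟨h0, h1, h2, h3, h4⟩

/-- the fold end is not junk -/
lemma fold_not_junk {Nc : Finset P} {co : P → ℕ × ℕ}
    (C : Chart (t : P) (fun c => c.1 ≤ c.2) Nc co) {x : P} (hx : x ∈ Nc) (h1 : 1 ≤ (co x).1) :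
    x ∉ junk (fun c => c.1 ≤ c.2) Nc co := by
  intro hJ
  obtain ⟨x1, E, hz⟩ := mem_junk.mp hJ
  have h2 := E.lt x hx h1
  have h3 : co x1 ≤ co x := (C.le_iff x hx x1 E.mem).mp (mem_jset.mp hz).1.le
  have h4 : (co x1).2 ≤ (co x).2 := h3.2
  omega

/-- the position of the fold end -/
theorem fold_pos (h : Win.GoodTo P r (2 * m)) (hm : 10 ≤ m) (C : Comp (2 * m) (t : P) lo hi e)
    (hS : Wd.Shape (2 * m) lo hi) {Nc : Finset P} {co : P → ℕ × ℕ}
    (R : StairNat (2 * m) m t Nc co) {x : P} (hx : x ∈ Nc) (hcx : co x = (m, m)) :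
    StairShape (2 * m) lo hi ∧ x = e (2 * m) m := by
  classical
  have H := h.H
  have hg := h.good
  have hxt : x ≤ (t : P) := R.chart.le_t x hx
  have hxl : lev x = 2 * m := by
    have := R.chart.lev x hx
    rw [hcx] at this
    simp only at this
    omega
  have n2 : nab 2 x = 2 := by
    rw [nab_chart R.chart hx, hcx]
    have : cellsAt (fun c => c.1 ≤ c.2) 2 (m, m) = {0, 1} := by
      ext a
      rw [mem_cellsAt, mem_insert, mem_singleton]
      simp only
      omega
    rw [this]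
    rfl
  have n1 : nab (2 * m - 1) x = 1 := by
    rw [nab_chart R.chart hx, hcx]
    have : cellsAt (fun c => c.1 ≤ c.2) (2 * m - 1) (m, m) = {m - 1} := by
      ext a
      rw [mem_cellsAt, mem_singleton]
      simp only
      omega
    rw [this, card_singleton]
  have c2 := nab_le_cn' (t := t) h hxt hxl.le 2
  rw [n2, cn_comp C (by omega)] at c2
  have c1 : cn 1 (t : P) ≤ 1 := by
    unfold cn
    rw [Finset.card_le_one]
    intro y hy z hz
    rw [mem_filter, mem_lv] at hy hz
    have hyN := R.strip (mem_lowPart.mpr ⟨hy.2, by omega⟩)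
    have hzN := R.strip (mem_lowPart.mpr ⟨hz.2, by omega⟩)
    have g1 := R.chart.lev y hyN
    have g2 := R.chart.lev z hzN
    have g3 : (co y).1 ≤ (co y).2 := R.chart.mem y hyN
    have g4 : (co z).1 ≤ (co z).2 := R.chart.mem z hzN
    exact R.chart.inj y hyN z hzN (Prod.ext (by omega) (by omega))
  rw [cn_comp C (by omega)] at c1
  have S : StairShape (2 * m) lo hi := by
    rcases hS with h1 | ⟨h1, h2⟩ | ⟨h1, h2⟩ | ⟨h1, h2, h3⟩ | ⟨h1, h2⟩ | ⟨a, h0, h1, h2, h3, hN, h4⟩
    · have := h1 2 (by omega)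
      omega
    · omega
    · exact h2
    · omega
    · omega
    · have := h2 2 (by omega)
      omega
  refine ⟨S, ?_⟩
  have hCh := chart_stair C H hg S
  have hxL : x ∈ lowPart (2 * m) (t : P) := mem_lowPart.mpr ⟨hxt, hxl.le⟩
  have hl := hCh.lev x hxL
  have hle : (ccoord lo hi e x).1 ≤ (ccoord lo hi e x).2 := hCh.mem x hxL
  rw [nab_chart hCh hxL] at n1 n2
  have ha1 : 1 ≤ (ccoord lo hi e x).1 := by
    by_contra hcon
    have h1 : cellsAt (fun c => c.1 ≤ c.2) 2 (ccoord lo hi e x) ⊆ {0} := by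
      intro a ha
      rw [mem_cellsAt] at ha
      rw [mem_singleton]
      omega
    have h2 := Finset.card_le_card h1
    rw [n2, card_singleton] at h2
    omega
  have hab : (ccoord lo hi e x).1 = m := by
    by_contra hcon
    have h1 : {(ccoord lo hi e x).1 - 1, (ccoord lo hi e x).1} ⊆
        cellsAt (fun c => c.1 ≤ c.2) (2 * m - 1) (ccoord lo hi e x) := by
      intro a ha
      rw [mem_insert, mem_singleton] at ha
      rw [mem_cellsAt]
      simp only
      omega
    have h2 := Finset.card_le_card h1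
    rw [n1, Finset.card_pair (by omega)] at h2
    omega
  obtain ⟨g1, g2, g3⟩ := scoord_spec C hxt hxl.le
  have g4 : scoord lo hi e x = m := hab
  rw [hxl, g4] at g3
  exact g3.symm

end One

/-- BLOCK D2: the context at window `m` and its fold ends -/
theorem exists_WM (hm : 10 ≤ m) (h : Win.GoodTo P r (2 * m)) (hr : 2 * m + 1 ≤ r)
    {lo hi : Tops P → ℕ → ℕ} {e : Tops P → ℕ → ℕ → P}
    (C : ∀ t : Tops P, Comp (2 * m) (t : P) (lo t) (hi t) (e t))
    (hS : ∀ t, Wd.Shape (2 * m) (lo t) (hi t)) :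
    ∃ N θ, WM r m N (fun t => hi t m - lo t m + 1) θ ∧
      ∀ t x, topOf x = t → (FoldM m N (fun t => hi t m - lo t m + 1) θ x ↔
        StairShape (2 * m) (lo t) (hi t) ∧ x = e t (2 * m) m) := by
  classical
  choose N θ hT hI using fun t => tyM_shape h hm (C t) (hS t)
  refine ⟨N, θ, ⟨h, hr, hm, dvd_W_Qd m, hT, ?_⟩, ?_⟩
  · rw [card_level h.H h.good C (i := m) (by omega)]
  · rintro t x rfl
    constructor
    · rintro ⟨Nc, co, F, hcx⟩
      exact fold_pos h hm (C _) (hS _) F.stair F.mem hcx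
    · rintro ⟨S, hx⟩
      obtain ⟨Nc, co, R, h1, h2, h3, h4⟩ := hI _ S
      have e1 := S.hi (2 * m) le_rfl
      have e2 := stair_lo (C _) S
      have e3 := (C (topOf x)).lo_mono (l := m) (d := m) (by omega)
      rw [show m + m = 2 * m by omega, e2] at e3
      have e4 : hi (topOf x) (2 * m) = m := by omega
      have e5 : ccoord (lo (topOf x)) (hi (topOf x)) (e (topOf x)) x = (m, m) := by
        have g1 := scoord_e (C (topOf x)) (k := 2 * m) (s := m) le_rfl (by omega) (by omega)
        have g2 := (C (topOf x)).lev_e (2 * m) m le_rfl (by omega) (by omega)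
        rw [← hx] at g1 g2
        unfold ccoord
        rw [g1, g2]
        exact Prod.ext rfl (by simp only; omega)
      have e6 : lev x = 2 * m := by
        have g2 := (C (topOf x)).lev_e (2 * m) m le_rfl (by omega) (by omega)
        rwa [← hx] at g2
      have e7 : x ∈ lowPart (2 * m) (topOf x : P) := mem_lowPart.mpr ⟨le_topOf x, e6.le⟩
      have e8 : co x = (m, m) := by rw [h4 x e7, e5]
      have e9 := R.strip e7
      refine ⟨Nc, co, ⟨R, h1, e9, by rw [e8]; show 1 ≤ m; omega, ?_, h3⟩, e8⟩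
      rw [h2]
      unfold thS
      rw [if_neg (fold_not_junk R.chart e9 (by rw [e8]; show 1 ≤ m; omega))]

end Pool.Agent.GaussPoset
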