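import Pool.Agent.W_448s8_h61.DB
import Pool.Agent.W_448s8_h76.SaG

/-!
The type of a strip at window `m`, level `2 m` (MP_448cb3_co, S8, block D2).
-/

namespace Pool.Agent.GaussPoset

set_option linter.unusedSectionVars false

open Polynomial Finset

universe u

variable {P : Type u} [Fintype P] [PartialOrder P] [DecidableEq P] {r m : ℕ}

open Cp

section One

variable {j a : ℕ} {t : Tops P} {lo hi : ℕ → ℕ} {e : ℕ → ℕ → P}

lemma nab_le_cn' (h : Win.GoodTo P r j) {v : P} (hv : v ≤ (t : P)) (hl : lev v ≤ j) (l : ℕ) :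
    nab l v ≤ cn l (t : P) := by
  classical
  unfold nab cn
  refine Finset.card_le_card fun x hx => ?_
  rw [mem_filter] at hx ⊢
  exact ⟨hx.1, Cp.up_le h.H h.good t.2 hv hl hx.2⟩

lemma only_low (h : Win.GoodTo P r j) : ∀ x, x ≤ (t : P) → lev x ≤ j → x ∈ onlyB t := by
  intro x hx hxi
  rw [mem_onlyB]
  intro s hs hxs
  exact top_eq h.H h.good hxi hs t.2 hxs hx

lemma cell_lev (C : Comp j (t : P) lo hi e) {x : P} (hx : x ≤ (t : P)) (hxj : lev x ≤ j) :
    (ccoord lo hi e x).1 + (ccoord lo hi e x).2 = lev x := by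
  obtain ⟨h1, h2, -⟩ := scoord_spec C hx hxj
  have h3 := C.hi_le hxj
  unfold ccoord
  simp only
  omega

/-- the ends below a straight part -/
lemma lInf_late (h : Win.GoodTo P r (2 * m)) (hm : 10 ≤ m) (C : Comp (2 * m) (t : P) lo hi e)
    (D : Wd.LateD (2 * m) a lo hi) (ha : m + 3 ≤ a) : LInf m t := by
  refine LInf.late ?_ ?_
  · intro l hl
    rw [cn_comp C (by omega)]
    have := D.h2 l (by omega)
    omega
  · intro v hv hvl hv1
    have h1 := D.ends C h.H h.good t.2 (by omega) hv hvl hv1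
    have h2 : ∑ k ∈ range (2 * m), ((nab k v : ℤ) - 1) ≤ 5 := by
      unfold Bal.NEnd2 at h1
      rcases h1 with h1 | h1 | h1 | h1 | h1 <;> omega
    have h3 : ((∑ l ∈ range (2 * m), (nab l v - 1) : ℕ) : ℤ) =
        ∑ k ∈ range (2 * m), ((nab k v : ℤ) - 1) := by
      rw [Nat.cast_sum]
      refine Finset.sum_congr rfl fun k hk => ?_
      rw [mem_range] at hk
      have := one_le_nab (z := v) (l := k) (by omega)
      rw [Nat.cast_sub this, Nat.cast_one]
    omega

lemma lInf_light (h : Win.GoodTo P r (2 * m)) (hm : 10 ≤ m) (C : Comp (2 * m) (t : P) lo hi e)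
    (hL : ∀ k, k ≤ 2 * m → lo k = 0 ∧ hi k = 0) : LInf m t := by
  have h0 : ∀ l, l ≤ 2 * m → cn l (t : P) = 1 := by
    intro l hl
    rw [cn_comp C (by omega)]
    have := hL l hl
    omega
  refine LInf.late (fun l hl => h0 l (by omega)) ?_
  intro v hv hvl _
  rw [Finset.sum_eq_zero]
  · exact Nat.zero_le _
  · intro l hl
    rw [mem_range] at hl
    have h1 := nab_le_cn' (t := t) h hv hvl.le l
    rw [h0 l hl.le] at h1
    omega

/-- what is said about the stairs -/
def StairInfo (m : ℕ) (t : Tops P) (lo hi : ℕ → ℕ) (e : ℕ → ℕ → P) (N : Finset P)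
    (θ : P → ℕ) : Prop :=
  ∃ Nc co, StairNat (2 * m) m t Nc co ∧ N = natS Nc co ∧ θ = thS m Nc co ∧ NopT m t ∧
    ∀ x ∈ lowPart (2 * m) (t : P), co x = ccoord lo hi e x

lemma stair_lo (C : Comp (2 * m) (t : P) lo hi e) (S : StairShape (2 * m) lo hi) : lo m = 0 := by
  by_contra hcon
  have e1 := shape_lo C S.lo (l := m) (by omega) m (by omega)
  have e2 := S.hi (m + m) (by omega)
  have e3 := C.lo_le (m + m) (by omega)
  omega

/-- the type of a stair-like strip -/
theorem tyM_stair (h : Win.GoodTo P r (2 * m)) (hm : 10 ≤ m) (C : Comp (2 * m) (t : P) lo hi e)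
    (S : StairShape (2 * m) lo hi) : ∃ N θ, TyM m t (hi m - lo m + 1) N θ ∧
      StairInfo m t lo hi e N θ := by
  have H := h.H
  have hg := h.good
  obtain ⟨Nc, co, h1, h1'⟩ := exists_stair C H hg H.gradedBelow S (i := m) le_rfl
  have hnop : NopT m t := by
    intro x z hxt hxl hx2 hzx honly
    obtain ⟨j, hj⟩ : ∃ j, 2 * m = j + 1 := ⟨2 * m - 1, by omega⟩
    have h2 := stairShape_pendant (i := j) (hj ▸ h) (by omega) t.2 (hj ▸ C) (hj ▸ S)
      (hxl.trans hj) hxt hx2 hzx honly
    have h3 := cell_lev C (x := x) hxt (by omega)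
    omega
  refine ⟨_, _, TyM.stair Nc co h1 rfl rfl ?_ hnop, Nc, co, h1, rfl, rfl, hnop, h1'⟩
  have e1 := S.hi m (by omega)
  have e2 := stair_lo C S
  omega

/-- the type of a rectangle-like strip -/
theorem tyM_rect (h : Win.GoodTo P r (2 * m)) (hm : 10 ≤ m) (C : Comp (2 * m) (t : P) lo hi e)
    (h1 : lo 1 = 0 ∧ hi 1 = 1) (S : RectShape (2 * m) lo hi) :
    ∃ N θ, TyM m t (hi m - lo m + 1) N θ := by
  have H := h.H
  have hg := h.good
  have hlt : lo m < hi m := by
    have g1 := C.lo_mono (l := 1) (d := m - 1) (by omega)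
    have g2 := C.hi_mono (l := 1) (d := m - 1) (by omega)
    rw [show 1 + (m - 1) = m by omega] at g1 g2
    by_contra hcon
    have g3 := C.lo_le m (by omega)
    have g4 := shape_lo C S.lo (l := m) (by omega) m (by omega)
    have g5 := shape_hi C S.hi (l := m) (by omega) m (by omega)
    have g6 := C.lo_le (m + m) (by omega)
    omega
  obtain ⟨Nc, co, h2, -⟩ := exists_rect C H hg H.gradedBelow S (i := m) le_rfl hlt
  refine ⟨_, _, TyM.rect Nc co h2 rfl rfl ?_⟩
  intro x z hxt hxl hx2 hzx honly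
  obtain ⟨j, hj⟩ : ∃ j, 2 * m = j + 1 := ⟨2 * m - 1, by omega⟩
  exact rectShape_no_pendant (i := j) (hj ▸ h) (by omega) t.2 (hj ▸ C) (hj ▸ S)
    (hxl.trans hj) hxt hx2 hzx honly

/-- the type of a late strip -/
theorem tyM_late (h : Win.GoodTo P r (2 * m)) (hm : 10 ≤ m) (C : Comp (2 * m) (t : P) lo hi e)
    (D : Wd.LateD (2 * m) a lo hi) : ∃ N θ, TyM m t (hi m - lo m + 1) N θ := by
  have hlight : m < a → LInf m t → ∃ N θ, TyM m t (hi m - lo m + 1) N θ := by
    intro hma hL
    have e1 := D.h2 m hma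
    exact ⟨_, _, TyM.light rfl rfl (by omega) (only_low h)
      ⟨e m (lo m), C.le_t m (lo m) (by omega) le_rfl (C.lo_le m (by omega)),
        C.lev_e m (lo m) (by omega) le_rfl (C.lo_le m (by omega))⟩ hL⟩
  by_cases ha : m + 3 ≤ a
  · exact hlight (by omega) (lInf_late h hm C D ha)
  · rcases D.h4 with ⟨h1, h2⟩ | h2
    · have hq := D.quad C h2
      have Q : QRows (2 * m) a lo hi := ⟨D.h2, D.h3, by
        intro k hk hk2
        have := hq (k - a) (by omega) (by omega)
        rwa [show a + (k - a) = k by omega] at this⟩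
      have hQ : QInf m a t := Q.inf C (by omega)
      obtain rfl | h3 : a = m ∨ a = m + 1 ∨ a = m + 2 := by omega
      · have e1 := D.h3
        exact ⟨_, _, TyM.quad rfl rfl (by omega) hQ⟩
      · exact hlight (by omega) (LInf.quad a h3 hQ)
    · exfalso
      have h3 := Wd.late_len_all h2
      rw [Wd.word_length] at h3
      have := D.h1
      have := D.h0
      omega

end One

end Pool.Agent.GaussPoset
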