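import Pool.Agent.W_448s8_h94.QdD

/-!
The window polynomial of the complete quadric (MP_448cb3_co, S8, block D2).
-/

namespace Pool.Agent.GaussPoset

set_option linter.unusedSectionVars false

open Polynomial Finset

universe u

variable {P : Type u} [Fintype P] [PartialOrder P] [DecidableEq P]

/-- the window polynomial of a Gaussian poset is divisible by `(1 + X) ^ b` -/
theorem DA_dvd_W_gauss (hG : IsGaussian P) (j : ℕ) :
    (1 + X : Polynomial (PowerSeries ℤ)) ^ (lv P j).card ∣ W P j := by
  classical
  obtain ⟨h, hpos, hU⟩ := hG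
  obtain ⟨R, hW, -⟩ := window_fact j hpos hU
  have h1 := (window_main j hpos hU).2.1
  rw [hW, h1]
  refine Dvd.dvd.mul_left (Dvd.dvd.mul_right ?_ _) _
  rw [Polynomial.map_pow, Polynomial.map_add, Polynomial.map_one, Polynomial.map_X]

/-- the complete quadric -/
theorem dvd_W_Qd (m : ℕ) : (1 + X : Polynomial (PowerSeries ℤ)) ^ 2 ∣ W (Qd m m) m := by
  have h := DA_dvd_W_gauss (isGaussian_Qd m) m
  rwa [Qd.card_lv] at h

end Pool.Agent.GaussPoset
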