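import Pool.Agent.W_448s8_h76.SaF
import Pool.Agent.W_448s8_h61.DA
import Pool.Agent.W_448wd_h84.WdI
import Pool.Agent.W_448s7_h5.SevH

/-!
Quadric strips (MP_448cb3_co, S8, block D2).
-/

namespace Pool.Agent.GaussPoset

set_option linter.unusedSectionVars false

open Polynomial Finset

universe u

variable {P : Type u} [Fintype P] [PartialOrder P] [DecidableEq P] {r m : ℕ}

open Cp

section Quadric

variable {j a : ℕ} {t : Tops P} {lo hi : ℕ → ℕ} {e : ℕ → ℕ → P}

lemma cn_comp (C : Comp j (t : P) lo hi e) {l : ℕ} (hl : l ≤ j) :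
    cn l (t : P) = hi l + 1 - lo l := by
  classical
  unfold cn
  exact C.card_row hl

/-- the rows of a quadric -/
structure QRows (j a : ℕ) (lo hi : ℕ → ℕ) : Prop where
  bel : ∀ k, k < a → lo k = 0 ∧ hi k = 0
  at' : lo a = 0 ∧ hi a = 1
  aft : ∀ k, a < k → k ≤ j → lo k = 1 ∧ hi k = 1

/-- consecutive rows are completely joined -/
lemma QRows.cov (Q : QRows j a lo hi) (C : Comp j (t : P) lo hi e) {l s s' : ℕ} (hl : l < j)
    (h1 : lo (l + 1) ≤ s) (h2 : s ≤ hi (l + 1)) (h3 : lo l ≤ s') (h4 : s' ≤ hi l) :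
    e (l + 1) s ⋖ e l s' := by
  rw [C.cov l s s' hl h1 h2 h3 h4]
  rcases Nat.lt_trichotomy l a with h | h | h
  · have e1 := Q.bel l h
    rcases Nat.lt_or_ge (l + 1) a with h' | h'
    · have e2 := Q.bel (l + 1) h'
      omega
    · have e2 := Q.at'
      rw [show a = l + 1 by omega] at e2
      omega
  · have e1 := Q.at'
    have e2 := Q.aft (l + 1) (by omega) (by omega)
    rw [← h] at e1
    omega
  · have e1 := Q.aft l h hl.le
    have e2 := Q.aft (l + 1) (by omega) (by omega)
    omega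

lemma QRows.le (Q : QRows j a lo hi) (C : Comp j (t : P) lo hi e) {l s' : ℕ}
    (h3 : lo l ≤ s') (h4 : s' ≤ hi l) : ∀ d s, l + (d + 1) ≤ j → lo (l + (d + 1)) ≤ s →
    s ≤ hi (l + (d + 1)) → e (l + (d + 1)) s ≤ e l s' := by
  intro d
  induction d with
  | zero =>
    intro s hd h1 h2
    exact (Q.cov C (by omega) h1 h2 h3 h4).le
  | succ d ih =>
    intro s hd h1 h2
    have h5 := C.lo_le (l + (d + 1)) (by omega)
    have h6 := ih (lo (l + (d + 1))) (by omega) le_rfl h5
    exact (Q.cov C (l := l + (d + 1)) (by omega) h1 h2 le_rfl h5).le.trans h6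

/-- elements on different levels of a quadric are comparable -/
lemma QRows.lt_le (Q : QRows j a lo hi) (C : Comp j (t : P) lo hi e) {x y : P}
    (hx : x ≤ (t : P)) (hy : y ≤ (t : P)) (hxj : lev x ≤ j) (hxy : lev y < lev x) : x ≤ y := by
  obtain ⟨s, h1, h2, h3⟩ := C.surj x hx hxj
  obtain ⟨s', h1', h2', h3'⟩ := C.surj y hy (by omega)
  obtain ⟨d, hd⟩ : ∃ d, lev x = lev y + (d + 1) := ⟨lev x - lev y - 1, by omega⟩
  rw [hd] at h1 h2 h3
  have h4 := Q.le C h1' h2' d s (by omega) h1 h2
  rwa [h3, h3'] at h4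

lemma QRows.cn (Q : QRows j a lo hi) (C : Comp j (t : P) lo hi e) {l : ℕ} (hl : l ≤ j) :
    cn l (t : P) = if l = a then 2 else 1 := by
  rw [cn_comp C hl]
  split_ifs with h
  · subst h
    have := Q.at'
    omega
  · rcases Nat.lt_or_ge l a with h' | h'
    · have := Q.bel l h'
      omega
    · have := Q.aft l (by omega) hl
      omega

lemma QRows.bot (Q : QRows j a lo hi) (C : Comp j (t : P) lo hi e) (haj : a < j) {v x : P}
    (hv : v ≤ (t : P)) (hvj : lev v = j) (hx : x ≤ (t : P)) (hxj : lev x ≤ j) : v ≤ x := by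
  rcases Nat.lt_or_ge (lev x) (lev v) with h | h
  · exact Q.lt_le C hv hx hvj.le h
  · have h1 : lev x = j := by omega
    obtain ⟨s, h1', h2, h3⟩ := C.surj v hv hvj.le
    obtain ⟨s', h4, h5, h6⟩ := C.surj x hx hxj
    have h7 := Q.aft j haj le_rfl
    rw [hvj] at h1' h2 h3
    rw [h1] at h4 h5 h6
    rw [← h3, ← h6, show s = s' by omega]

/-- the number of an element of a quadric -/
lemma QRows.num (Q : QRows j a lo hi) (C : Comp j (t : P) lo hi e) {x : P} (hx : x ≤ (t : P))
    (hxj : lev x ≤ j) : (scoord lo hi e x = 0 ∧ lev x ≤ a) ∨ (scoord lo hi e x = 1 ∧ a ≤ lev x) := by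
  obtain ⟨h1, h2, -⟩ := scoord_spec C hx hxj
  rcases Nat.lt_trichotomy (lev x) a with h | h | h
  · have := Q.bel _ h
    omega
  · have := Q.at'
    rw [← h] at this
    omega
  · have := Q.aft _ h hxj
    omega

/-- a quadric strip is a quadric poset -/
theorem QRows.iso (Q : QRows j a lo hi) (C : Comp j (t : P) lo hi e) (haj : a < j) :
    Nonempty ({x : P // x ∈ lowPart j (t : P)} ≃o Qd a (j - a)) := by
  classical
  have hnum : ∀ x : {x : P // x ∈ lowPart j (t : P)},
      (scoord lo hi e (x : P) = 0 ∧ lev (x : P) ≤ a) ∨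
      (scoord lo hi e (x : P) = 1 ∧ a ≤ lev (x : P)) := fun x =>
    Q.num C (mem_lowPart.mp x.2).1 (mem_lowPart.mp x.2).2
  let f : {x : P // x ∈ lowPart j (t : P)} → Qd a (j - a) := fun x =>
    Qd.mk (lev (x : P) + scoord lo hi e (x : P)) (by
      have := hnum x
      have := (mem_lowPart.mp x.2).2
      omega)
  have hf : ∀ x, (f x).val = lev (x : P) + scoord lo hi e (x : P) := fun x => rfl
  have hle : ∀ x y, f x ≤ f y ↔ x ≤ y := by
    intro x y
    rw [Qd.le_iff, hf, hf]
    have h1 := hnum x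
    have h2 := hnum y
    have hx := mem_lowPart.mp x.2
    have hy := mem_lowPart.mp y.2
    constructor
    · intro h
      rcases Nat.lt_or_ge (lev (y : P)) (lev (x : P)) with h3 | h3
      · exact Q.lt_le C hx.1 hy.1 hx.2 h3
      · have h4 : lev (x : P) = lev (y : P) := by omega
        have h5 : scoord lo hi e (x : P) = scoord lo hi e (y : P) := by omega
        obtain ⟨-, -, e1⟩ := scoord_spec C hx.1 hx.2
        obtain ⟨-, -, e2⟩ := scoord_spec C hy.1 hy.2
        rw [h4, h5, e2] at e1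
        exact le_of_eq (Subtype.ext e1.symm)
    · intro h
      by_cases h3 : x = y
      · rw [h3]; exact Or.inl rfl
      · have h4 : (x : P) < (y : P) := lt_of_le_of_ne h (fun h' => h3 (Subtype.ext h'))
        have h5 := lev_strictAnti h4
        omega
  have hinj : Function.Injective f := by
    intro x y h
    exact le_antisymm ((hle x y).mp h.le) ((hle y x).mp h.ge)
  have hsurj : Function.Surjective f := by
    intro y
    have hy := y.lt
    rcases Nat.lt_or_ge a y.val with h | h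
    · obtain ⟨k, hk⟩ : ∃ k, y.val = k + 1 := ⟨y.val - 1, by omega⟩
      have hkj : k ≤ j := by omega
      have hrow : lo k ≤ 1 ∧ 1 ≤ hi k := by
        rcases Nat.lt_or_ge a k with h' | h'
        · have := Q.aft k h' hkj
          omega
        · have := Q.at'
          rw [show a = k by omega] at this
          omega
      refine ⟨⟨e k 1, mem_lowPart.mpr ⟨C.le_t k 1 hkj hrow.1 hrow.2, by
        rw [C.lev_e k 1 hkj hrow.1 hrow.2]; exact hkj⟩⟩, ?_⟩
      apply Qd.ext
      rw [hf, scoord_e C hkj hrow.1 hrow.2, C.lev_e k 1 hkj hrow.1 hrow.2, hk]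
    · have hkj : y.val ≤ j := by omega
      have hrow : lo y.val ≤ 0 ∧ 0 ≤ hi y.val := by
        rcases Nat.lt_or_ge y.val a with h' | h'
        · have := Q.bel _ h'
          omega
        · have := Q.at'
          rw [show a = y.val by omega] at this
          omega
      refine ⟨⟨e y.val 0, mem_lowPart.mpr ⟨C.le_t _ 0 hkj hrow.1 hrow.2, by
        rw [C.lev_e _ 0 hkj hrow.1 hrow.2]; exact hkj⟩⟩, ?_⟩
      apply Qd.ext
      rw [hf, scoord_e C hkj hrow.1 hrow.2, C.lev_e _ 0 hkj hrow.1 hrow.2, Nat.add_zero]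
  exact ⟨{ toEquiv := Equiv.ofBijective f ⟨hinj, hsurj⟩, map_rel_iff' := fun {x y} => hle x y }⟩

/-- the quadric strips -/
theorem QRows.inf (Q : QRows (2 * m) a lo hi) (C : Comp (2 * m) (t : P) lo hi e)
    (haj : a < 2 * m) : QInf m a t :=
  ⟨fun _ hl => Q.cn C hl, fun _ hv hvl _ hx hxl => Q.bot C haj hv hvl hx hxl, Q.iso C haj⟩

end Quadric

end Pool.Agent.GaussPoset
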